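import Pool.Agent.H929.BW.Stm

/-!
# BW (helper929), task CLE3 (helper353): clusters in space, emptiness
-/

set_option autoImplicit false

namespace Pool.Agent.H353.BW

open Finset Pool.Agent.H929.BW Pool.Agent.Y55.Col

lemma ch (d : ℕ) : 6 * (d + 3).choose 3 = (d + 1) * (d + 2) * (d + 3) := by
  have h := Nat.descFactorial_eq_factorial_mul_choose (d + 3) 3
  have h2 : (d + 3).descFactorial 3 = (d + 1) * (d + 2) * (d + 3) := by
    simp only [Nat.descFactorial_succ, Nat.descFactorial_zero, Nat.sub_zero]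
    have e1 : d + 3 - 2 = d + 1 := by omega
    have e2 : d + 3 - 1 = d + 2 := by omega
    rw [e1, e2]
    ring
  have h3 : Nat.factorial 3 = 6 := rfl
  rw [h2, h3] at h
  exact h.symm

lemma g3_cube (m : ℕ) : g3 m ^ 3 = (m : ℝ) * (m + 1) * (m + 2) := by
  unfold g3
  rw [← Real.rpow_natCast, ← Real.rpow_mul (by positivity)]
  norm_num

lemma g3_nonneg (m : ℕ) : 0 ≤ g3 m := by
  unfold g3
  positivity

lemma le_g3 (m : ℕ) : (m : ℝ) ≤ g3 m := by
  have h1 : (m : ℝ) ^ 3 ≤ g3 m ^ 3 := by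
    rw [g3_cube]
    have : (0 : ℝ) ≤ m := Nat.cast_nonneg m
    nlinarith [sq_nonneg (m : ℝ)]
  exact le_of_pow_le_pow_left₀ (by norm_num) (g3_nonneg m) h1

theorem t_CLE3 : S_CLE3 := by
  intro m hm T t ht htT
  obtain ⟨u, hu⟩ : ∃ u, u = (t : ℝ) * g3 m := ⟨_, rfl⟩
  have ht1 : (1 : ℝ) ≤ t := by exact_mod_cast ht
  have hmr : (1 : ℝ) ≤ m := by exact_mod_cast hm
  have hg := le_g3 m
  have hg0 := g3_nonneg m
  have hmu : (m : ℝ) ≤ u := by
    rw [hu]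
    nlinarith
  by_cases h11 : u < 11
  · refine ⟨0, ?_, ?_⟩
    · refine ⟨Fin (t ^ (2 + 1)), inferInstance, fun _ => m, fun _ _ => 0, ?_, fun F hF _ => ?_⟩
      · rw [Multiset.map_const', Finset.card_val, Finset.card_univ, Fintype.card_fin]
      · by_contra hne
        obtain ⟨a, ha⟩ := MvPolynomial.support_nonempty.2 hne
        exact absurd (hF a ha) (Nat.not_lt_zero _)
    · rw [← hu]
      push_cast
      linarith
  push Not at h11
  have hu0 : 0 ≤ u := by linarith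
  have hfl : 11 ≤ ⌊u⌋₊ := Nat.le_floor (by exact_mod_cast h11)
  obtain ⟨d, hd⟩ : ∃ d, ⌊u⌋₊ = d + 11 := ⟨⌊u⌋₊ - 11, by omega⟩
  have hdu : (d : ℝ) + 11 ≤ u := by
    have h1 := Nat.floor_le hu0
    rw [hd] at h1
    push_cast at h1
    exact h1
  have hdu2 : u < (d : ℝ) + 12 := by
    have h1 := Nat.lt_floor_add_one u
    rw [hd] at h1
    push_cast at h1
    linarith
  -- the count
  obtain ⟨m', rfl⟩ : ∃ m', m = m' + 1 := ⟨m - 1, by omega⟩
  have hc1 : (6 : ℝ) * ((d + 3).choose 3 : ℕ) = ((d : ℝ) + 1) * (d + 2) * (d + 3) := by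
    exact_mod_cast ch d
  have hc2 : (6 : ℝ) * ((m' + 1 + 2).choose 3 : ℕ) = g3 (m' + 1) ^ 3 := by
    rw [g3_cube]
    have h1 : (6 : ℝ) * ((m' + 3).choose 3 : ℕ) = ((m' : ℝ) + 1) * (m' + 2) * (m' + 3) := by
      exact_mod_cast ch m'
    rw [show m' + 1 + 2 = m' + 3 by ring, h1]
    push_cast
    ring
  have hd0 : (0 : ℝ) ≤ d := Nat.cast_nonneg d
  have hmain : ((d : ℝ) + 1) * (d + 2) * (d + 3) + 9 * ((m' : ℝ) + 1) * m' ≤ u ^ 3 := by
    have h1 : ((d : ℝ) + 1) * (d + 2) * (d + 3) ≤ (u - 9) ^ 3 := by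
      have h2 : ((d : ℝ) + 1) * (d + 2) * (d + 3) ≤ (d + 2) ^ 3 := by nlinarith
      exact h2.trans (pow_le_pow_left₀ (by linarith) (by linarith) 3)
    have h3 : 9 * ((m' : ℝ) + 1) * m' ≤ 9 * u ^ 2 := by
      push_cast at hmu
      have h4 : (0 : ℝ) ≤ m' := Nat.cast_nonneg m'
      nlinarith
    nlinarith [mul_nonneg (show 0 ≤ 2 * u - 9 by linarith) (show 0 ≤ u - 9 by linarith)]
  have hkey : 2 * (d + 3).choose 3 + 3 * (m' + 1) * (m' + 1 - 1) ≤
      2 * (t ^ 3 * (m' + 1 + 2).choose 3) := by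
    rw [Nat.add_sub_cancel]
    have h1 : (2 * ((d + 3).choose 3 : ℕ) + 3 * ((m' : ℝ) + 1) * m' : ℝ) ≤
        2 * ((t : ℝ) ^ 3 * ((m' + 1 + 2).choose 3 : ℕ)) := by
      have h2 : u ^ 3 = (t : ℝ) ^ 3 * g3 (m' + 1) ^ 3 := by rw [hu]; ring
      rw [h2, ← hc2, ← hc1] at hmain
      linarith
    exact_mod_cast h1
  have hle : (d + (2 + 1)).choose (2 + 1) ≤ t ^ (2 + 1) * (m' + 1 + 2).choose (2 + 1) := by
    show (d + 3).choose 3 ≤ t ^ 3 * (m' + 1 + 2).choose 3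
    omega
  have h1 := emp_of_general _ (Pool.Agent.K7.H43.PT.uniform_zeroT 2 t (m' + 1) d ht
    (Or.inr (Or.inl ⟨rfl, Or.inr (Or.inr (Or.inl hkey))⟩)) hle)
  rw [Multiset.map_const', Finset.card_val, Finset.card_univ, Fintype.card_fin] at h1
  refine ⟨d + 1, h1, ?_⟩
  rw [← hu]
  push_cast
  linarith

end Pool.Agent.H353.BW
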